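import Pool.Agent.H997.RNP.Loc

/-!
A complete metric space that locally biLipschitz embeds into RNP spaces but admits no
biLipschitz embedding into any RNP space.
-/
namespace Pool.Agent.Results.MP_49a0e9_an.NotLocalToGlobal

open Pool.Agent.H997.RNP

universe u

/-- A normed space is an RNP space: each Lipschitz map `f : ℝ → V` is differentiable at
Lebesgue-almost every point. -/
def RNP (V : Type u) [NormedAddCommGroup V] [NormedSpace ℝ V] : Prop :=
  ∀ f : ℝ → V, (∃ K : NNReal, LipschitzWith K f) → ∀ᵐ t : ℝ, DifferentiableAt ℝ f t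

/-- `φ` is a biLipschitz embedding. -/
def BiLipschitz {Y : Type*} {V : Type*} [MetricSpace Y] [NormedAddCommGroup V] (φ : Y → V) :
    Prop :=
  ∃ c C : ℝ, 0 < c ∧ c ≤ C ∧ ∀ x y, c * dist x y ≤ ‖φ x - φ y‖ ∧ ‖φ x - φ y‖ ≤ C * dist x y

/-- `Y` locally biLipschitz embeds into RNP spaces: every `p` has a radius `r > 0` such that the
closed ball of radius `r` about `p` admits a biLipschitz embedding into some RNP Banach space. -/
def LocallyEmbeds (Y : Type) [MetricSpace Y] : Prop :=
  ∀ p : Y, ∃ r : ℝ, 0 < r ∧ ∃ (V : Type) (_ : NormedAddCommGroup V) (_ : NormedSpace ℝ V)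
    (_ : CompleteSpace V), RNP V ∧ ∃ φ : Metric.closedBall p r → V, BiLipschitz φ

lemma locallyEmbeds : LocallyEmbeds X := by
  intro p
  refine ⟨1 / 2, by norm_num, ℝ × ℝ, inferInstance, inferInstance, inferInstance, ?_, ?_⟩
  · rintro f ⟨K, hf⟩
    exact hf.ae_differentiableAt
  · refine ⟨fun x => (x.1.1.2.1, S x.1), 1 / (1 + 2 * ((p.1.1 : ℝ) + 1)), 2, by positivity, ?_, ?_⟩
    · rw [div_le_iff₀ (by positivity)]
      have : (0:ℝ) ≤ p.1.1 := Nat.cast_nonneg _
      linarith
    · intro x y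
      have h1 : ∀ z : Metric.closedBall p (1 / 2), z.1.1.1 = p.1.1 := by
        intro z
        have hz : dist z.1 p ≤ 1 / 2 := z.2
        rw [dist_X] at hz
        have h2 : dist z.1.1.1 p.1.1 ≤ 1 / 2 := (le_max_left _ _).trans hz
        by_contra hne
        have h3 : (1:ℝ) ≤ dist z.1.1.1 p.1.1 := by
          rw [Nat.dist_eq]
          have : ((z.1.1.1 : ℤ)) - (p.1.1 : ℤ) ≠ 0 := by omega
          have h4 : (1:ℤ) ≤ |(z.1.1.1 : ℤ) - (p.1.1 : ℤ)| := Int.one_le_abs this
          have h5 : ((1:ℤ):ℝ) ≤ ((|(z.1.1.1 : ℤ) - (p.1.1 : ℤ)| : ℤ) : ℝ) := by exact_mod_cast h4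
          push_cast at h5
          exact h5
        linarith
      have hn : x.1.1.1 = y.1.1.1 := (h1 x).trans (h1 y).symm
      obtain ⟨k1, k2⟩ := key x.1 y.1 hn
      have hd : dist x y = dist x.1 y.1 := rfl
      have hline : |x.1.1.2.1 - y.1.1.2.1| ≤ dist x.1 y.1 := by
        rw [dist_X, ← Real.dist_eq]
        exact le_max_of_le_right (le_max_left _ _)
      have hnorm : ‖(x.1.1.2.1, S x.1) - (y.1.1.2.1, S y.1)‖ =
          max |x.1.1.2.1 - y.1.1.2.1| |S x.1 - S y.1| := by
        rw [Prod.mk_sub_mk, Prod.norm_def, Real.norm_eq_abs, Real.norm_eq_abs]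
      have hdn := dist_nonneg (x := x.1) (y := y.1)
      rw [hd, hnorm]
      constructor
      · rw [div_mul_eq_mul_div, one_mul, div_le_iff₀ (by positivity)]
        have m1 := le_max_left |x.1.1.2.1 - y.1.1.2.1| |S x.1 - S y.1|
        have m2 := le_max_right |x.1.1.2.1 - y.1.1.2.1| |S x.1 - S y.1|
        rw [h1 x] at k2
        set m := max |x.1.1.2.1 - y.1.1.2.1| |S x.1 - S y.1|
        have h6 : 2 * ((p.1.1 : ℝ) + 1) * |S x.1 - S y.1| ≤ 2 * ((p.1.1 : ℝ) + 1) * m := by
          gcongr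
        nlinarith
      · exact max_le (by linarith) k1

/-- There is a complete metric space that locally biLipschitz embeds into RNP spaces but admits
no biLipschitz embedding into any RNP space. -/
theorem result : ∃ (Y : Type) (_ : MetricSpace Y), CompleteSpace Y ∧ LocallyEmbeds Y ∧
    ∀ (V : Type u) [NormedAddCommGroup V] [NormedSpace ℝ V] [CompleteSpace V], RNP V →
      ¬ ∃ φ : Y → V, BiLipschitz φ := by
  refine ⟨X, inferInstance, inferInstance, locallyEmbeds, ?_⟩
  rintro V _ _ _ hV ⟨φ, c, C, hc, hcC, h⟩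
  exact no_embed hV φ hc hcC h

end Pool.Agent.Results.MP_49a0e9_an.NotLocalToGlobal
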